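import Pool.Agent.AEC.StmtsB

/-!
# Squad AEC, row SMC: strong embeddings are determined by small models
-/

open FirstOrder FirstOrder.Language Cardinal Set

universe u

namespace Pool.Agent.AEC.H25

open Pool.Agent.AEC

variable {L : FirstOrder.Language.{u, u}} {κ : Cardinal.{u}}

/-- One step: a small set is contained in a small strong substructure, inside of `range f` if the
set is contained in `range f`. -/
theorem step (K : AEC L κ) {A B : Type u} [L.Structure A] [L.Structure B] (f : A ↪[L] B)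
    (hf : K.emb f) (X : Set B) (hX : #X ≤ κ) :
    ∃ S : L.Substructure B, X ⊆ (S : Set B) ∧ K.emb S.subtype ∧ #S ≤ κ ∧
      (X ⊆ Set.range f → (S : Set B) ⊆ Set.range f) := by
  have hk : κ + κ = κ := Cardinal.add_eq_self K.aleph0_le
  by_cases hr : X ⊆ Set.range f
  · obtain ⟨S', h1, h2, h3⟩ := K.ls (K.dom hf) (f ⁻¹' X)
    let A' : K.Mod := ⟨S', K.dom h2⟩
    let B' : K.Mod := ⟨B, K.cod hf⟩
    let g : K.Hom A' B' := ⟨f.comp S'.subtype, K.comp h2 hf⟩
    have hg := g.emb_range
    refine ⟨(f.comp S'.subtype).toHom.range, ?_, hg, ?_, fun _ => ?_⟩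
    · intro x hx
      obtain ⟨a, ha⟩ := hr hx
      have ha' : a ∈ S' := h1 (by rw [Set.mem_preimage, ha]; exact hx)
      exact ⟨⟨a, ha'⟩, ha⟩
    · have e1 : #((f.comp S'.subtype).toHom.range) ≤ #S' := by
        refine Cardinal.mk_le_of_injective
          (f := (f.comp S'.subtype).equivRange.symm) ?_
        exact (f.comp S'.subtype).equivRange.symm.injective
      have e2 : #(f ⁻¹' X) ≤ #X := by
        refine Cardinal.mk_le_of_injective
          (f := fun a : (f ⁻¹' X : Set A) => (⟨f a.1, a.2⟩ : X)) ?_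
        intro a b hab
        have := congrArg Subtype.val hab
        exact Subtype.ext (f.injective this)
      calc #((f.comp S'.subtype).toHom.range) ≤ #S' := e1
        _ ≤ #(f ⁻¹' X) + κ := h3
        _ ≤ κ + κ := add_le_add (e2.trans hX) le_rfl
        _ = κ := hk
    · rintro y ⟨x, hx⟩
      exact ⟨x.1, hx⟩
  · obtain ⟨S, h1, h2, h3⟩ := K.ls (K.cod hf) X
    exact ⟨S, h1, h2, h3.trans ((add_le_add hX le_rfl).trans (le_of_eq hk)),
      fun h => absurd h hr⟩

/-- The recursion. -/
theorem exists_rec {α β : Type u} (F : (s : Finset α) → ((t : Finset α) → t ⊂ s → β) → β) :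
    ∃ S : Finset α → β, ∀ s, S s = F s (fun t _ => S t) :=
  ⟨Finset.strongInduction F, fun s => Finset.strongInduction_eq F s⟩

theorem onlyIf (K : AEC L κ) {A B : Type u} [L.Structure A] [L.Structure B] (f : A ↪[L] B)
    (hf : K.emb f) : ∃ (S : Finset B → L.Substructure B) (mono : Monotone S),
    (∀ s : Finset B, (s : Set B) ⊆ (S s : Set B)) ∧ (∀ s, #(S s) ≤ κ) ∧
    (∀ s t (h : s ≤ t), K.emb (Substructure.inclusion (mono h))) ∧
    ∀ s : Finset B, (s : Set B) ⊆ Set.range f → (S s : Set B) ⊆ Set.range f := by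
  classical
  have hpick : ∀ X : Set B, ∃ S : L.Substructure B, #X ≤ κ → (X ⊆ (S : Set B) ∧
      K.emb S.subtype ∧ #S ≤ κ ∧ (X ⊆ Set.range f → (S : Set B) ⊆ Set.range f)) := by
    intro X
    by_cases hX : #X ≤ κ
    · obtain ⟨S, hS⟩ := step K f hf X hX
      exact ⟨S, fun _ => hS⟩
    · exact ⟨⊤, fun h => absurd h hX⟩
  choose pick hp using hpick
  obtain ⟨S, hS⟩ := exists_rec (α := B) (β := L.Substructure B)
    (fun s ih => pick ((s : Set B) ∪ ⋃ t : {t : Finset B // t ⊂ s}, (ih t.1 t.2 : Set B)))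
  have hcard : ∀ s : Finset B, (∀ t, t ⊂ s → #(S t) ≤ κ) →
      #(((s : Set B) ∪ ⋃ t : {t : Finset B // t ⊂ s}, (S t.1 : Set B) : Set B)) ≤ κ := by
    intro s ih
    have h0 : #((s : Set B)) ≤ κ :=
      (Cardinal.lt_aleph0_iff_set_finite.2 s.finite_toSet).le.trans K.aleph0_le
    have hfin : Finite {t : Finset B // t ⊂ s} :=
      Set.Finite.to_subtype ((Finset.finite_toSet s.powerset).subset (fun t ht => by
        have ht1 : t ⊂ s := ht
        exact Finset.mem_coe.2 (Finset.mem_powerset.2 ht1.1)))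
    have h1 : #{t : Finset B // t ⊂ s} ≤ κ :=
      (Cardinal.lt_aleph0_of_finite _).le.trans K.aleph0_le
    have h2 : #((⋃ t : {t : Finset B // t ⊂ s}, (S t.1 : Set B) : Set B)) ≤ κ := by
      refine (Cardinal.mk_iUnion_le_sum_mk).trans ?_
      refine (Cardinal.sum_le_sum _ (fun _ : {t : Finset B // t ⊂ s} => κ)
        (fun t => ih t.1 t.2)).trans ?_
      rw [Cardinal.sum_const']
      exact (mul_le_mul' h1 le_rfl).trans (le_of_eq (Cardinal.mul_eq_self K.aleph0_le))
    refine (Cardinal.mk_union_le _ _).trans ?_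
    exact (add_le_add h0 h2).trans (le_of_eq (Cardinal.add_eq_self K.aleph0_le))
  have hk : ∀ s : Finset B, #(S s) ≤ κ := by
    intro s
    induction s using Finset.strongInduction with
    | H s ih =>
      rw [hS s]
      exact (hp _ (hcard s ih)).2.2.1
  have hmain : ∀ s : Finset B, ((s : Set B) ∪ ⋃ t : {t : Finset B // t ⊂ s}, (S t.1 : Set B)) ⊆
      (S s : Set B) ∧ K.emb (S s).subtype ∧
      (((s : Set B) ∪ ⋃ t : {t : Finset B // t ⊂ s}, (S t.1 : Set B)) ⊆ Set.range f →
        (S s : Set B) ⊆ Set.range f) := by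
    intro s
    have h := hp _ (hcard s (fun t _ => hk t))
    rw [← hS s] at h
    exact ⟨h.1, h.2.1, h.2.2.2⟩
  have hmono : Monotone S := by
    intro t s hts
    rcases (show t ⊆ s from hts).eq_or_ssubset with h | h
    · rw [h]
    · intro x hx
      exact (hmain s).1 (Or.inr (Set.mem_iUnion.2 ⟨⟨t, h⟩, hx⟩))
  refine ⟨S, hmono, fun s x hx => (hmain s).1 (Or.inl hx), hk, fun s t h => ?_, fun s => ?_⟩
  · refine K.coh (g := (S t).subtype) (hmain t).2.1 ?_
    have : (S t).subtype.comp (Substructure.inclusion (hmono h)) = (S s).subtype := by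
      ext x
      rfl
    rw [this]
    exact (hmain s).2.1
  · induction s using Finset.strongInduction with
    | H s ih =>
      intro hs
      refine (hmain s).2.2 ?_
      rintro x (hx | hx)
      · exact hs hx
      · obtain ⟨⟨t, ht⟩, hx⟩ := Set.mem_iUnion.1 hx
        exact ih t ht (fun y hy => hs (ht.subset hy)) hx

theorem ofTop (K : AEC L κ) {A B : Type u} [L.Structure A] [L.Structure B] (f : A ↪[L] B)
    (P Q : L.Substructure B) (h : P ≤ Q) (he : K.emb (Substructure.inclusion h))
    (hP : P = f.toHom.range) (hQ : Q = ⊤) : K.emb f := by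
  subst hP
  subst hQ
  have hA : K.mem A := K.cod (K.iso (K.dom he) f.equivRange.symm)
  have h1 : f = (Substructure.topEquiv (L := L) (M := B)).toEmbedding.comp
      ((Substructure.inclusion h).comp f.equivRange.toEmbedding) := by
    ext x
    rfl
  rw [h1]
  exact K.comp (K.comp (K.iso hA _) he) (K.iso (K.cod he) _)

/-- **SMC**. -/
theorem smc (hfin : FinStmt.{u}) : SmcStmt.{u} := by
  intro L κ K A B _ _ f
  constructor
  · exact onlyIf K f
  · rintro ⟨S, mono, hs, -, hemb, hr⟩
    have h := hfin L κ K B B S mono hemb (Set.range f) Set.univ (Set.subset_univ _)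
    refine ofTop K f _ _ _ h ?_ ?_
    · apply le_antisymm
      · refine iSup_le fun s => ?_
        intro x hx
        obtain ⟨a, ha⟩ := hr s.1 s.2 hx
        exact ⟨a, ha⟩
      · rintro x ⟨a, ha⟩
        have hx : x ∈ Set.range f := ⟨a, ha⟩
        have h1 : (({x} : Finset B) : Set B) ⊆ Set.range f := by
          intro y hy
          rw [Finset.coe_singleton, Set.mem_singleton_iff] at hy
          rw [hy]
          exact hx
        exact le_iSup (fun s : {s : Finset B // (s : Set B) ⊆ Set.range f} => S s.1)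
          ⟨{x}, h1⟩ (hs {x} (by simp))
    · rw [eq_top_iff]
      intro x _
      exact le_iSup (fun s : {s : Finset B // (s : Set B) ⊆ Set.univ} => S s.1)
        ⟨{x}, Set.subset_univ _⟩ (hs {x} (by simp))

end Pool.Agent.AEC.H25
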